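import Pool.Agent.H583_GQ.Hts
import Pool.Agent.H583_U.U7

/-!
MP_70ba79_ag, Q1: linear bounds for the degrees of curves in quasi-projective varieties with rational
functions which take certain values with high multiplicities.

`y` is the generic point, in homogeneous coordinates, of a projective variety with function field
`L` (`coords ℂ y = ⊤`: the ratios generate `L`), `D` a set of forms, and `X` the complement of the
closed set `D = 0` in this variety; `In`, `CentreIn` (`Pool/Agent/H583_GQ/Defs.lean`): a point, or the
centre of a discrete valuation, lies in `D = 0`. `Family`: `x i`, `i < N`, are rational functions on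
`X` which define a generically finite rational map to `(ℙ¹)ᴺ`, such that the vectors of the
multiplicities of the values `a i j` of the functions `x i` at the points of curves in `X`, with
images not in a proper closed subset of `X`, are in the set `T`. `Good`: the numerical condition for
`T`. `LogGT`, `StronglyLog`: `X` is of log general type, strongly of log general type.

A morphism from a smooth curve to `X` is given by a point `z` of `X` over the function field `E` of
the curve (`IsFF`: `E` is finitely generated of transcendence degree one); the points at infinity are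
the places with the centre in `D = 0`, and `canDeg ℂ E = 2 g - 2`; `pht ℂ z` is the degree of the
morphism, `Value y (x i) z (x' i)`: the function `x i` restricts to `x' i`, of degree `hgt ℂ (x' i)`.
-/

set_option autoImplicit false

namespace Pool.Agent.Results.MP_70ba79_ag.MultiplicityDegrees

open FF Pool.Agent.W602.GT Pool.Agent.W603.LV Pool.Agent.W603.PV Pool.Agent.H583_GQ

/-- Let `T` be a set of vectors of multiplicities which satisfies `Good`, for instance because
`p i ≥ 3` for all `i` and all nonzero vectors in `T` have a sum larger than `∑ p i / (p i - 2)`.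
There is a constant `A₀`, which depends only on `p` and `T`, with the following property. Let `X`,
the complement of `D = 0` in the projective variety with the generic point `y`, have rational
functions `x i` as in `Family`, where the `a i j` are different for different `j`. There are a
proper closed subset `R = 0` of `X` and a constant `A` such that, for every smooth curve `C` of genus
`g`, with `s` points at infinity, and every morphism from `C` to `X` with an image not contained in
the closed subset, the functions `x i` restrict to functions `x' i` on `C` with
`∑ deg (x' i) ≤ A₀ * max (2 g - 2 + s) 0`, and the degree of the morphism is at most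
`A * max (2 g - 2 + s) 0`. Moreover `X`, if it is not empty and of positive dimension, is of log
general type, and so are all its closed subvarieties of positive dimension which are not contained
in a proper closed subset. -/
theorem result (N : ℕ) (p : Fin N → ℕ) (T : Set (∀ i, Fin (p i) → ℕ))
    (hT : Pool.Agent.H583_GQ.Good p T ∨ ((∀ i, 3 ≤ p i) ∧ ∀ m ∈ T, m ≠ 0 →
      ∑ i, (p i : ℝ) / ((p i : ℝ) - 2) < ((∑ i, ∑ j, m i j : ℕ) : ℝ))) :
    ∃ A₀ : ℕ, ∀ (M : ℕ) (L : Type) [Field L] [Algebra ℂ L] (y : Fin (M + 1) → L)
      (D : Set (MvPolynomial (Fin (M + 1)) ℂ)) (a : ∀ i, Fin (p i) → ℂ) (x : Fin N → L),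
      (∀ i, Function.Injective (a i)) → y ≠ 0 → coords ℂ y = ⊤ → Family a y D x T →
      (¬ In D y → ∀ d : ℕ, 1 ≤ d → Algebra.trdeg ℂ L = d → LogGT y D d) ∧ StronglyLog y D ∧
      ∃ R : MvPolynomial (Fin (M + 1)) ℂ, IsForm R ∧ val y R ≠ 0 ∧ ∃ A : ℕ,
        ∀ (E : Type) [Field E] [Algebra ℂ E] [IsFF ℂ E] (z : Fin (M + 1) → E), Pt y z →
          ¬ In D z → val z R ≠ 0 → ∃ x' : Fin N → E, (∀ i, Value y (x i) z (x' i)) ∧
            ∑ i, hgt ℂ (x' i) ≤
              A₀ * max (canDeg ℂ E + ({P : Place ℂ E | CentreIn D z P}.ncard : ℤ)) 0 ∧
            pht ℂ z ≤
              A * max (canDeg ℂ E + ({P : Place ℂ E | CentreIn D z P}.ncard : ℤ)) 0 := by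
  have hG : Pool.Agent.H583_GQ.Good p T :=
    hT.elim id fun h => (strong_of_sum h.1 h.2).good
  obtain ⟨α, β, hαβ⟩ := hG.nat
  exact ⟨∑ i, α i, fun M L _ _ y D a x ha hy hgen hF =>
    ⟨fun hD d hd htr => (Pool.Agent.H583_U.good_strongly ha hF hy hgen hG).self hy hgen hD hd htr,
      Pool.Agent.H583_U.good_strongly ha hF hy hgen hG, degrees ha hF hy hgen hαβ⟩⟩

end Pool.Agent.Results.MP_70ba79_ag.MultiplicityDegrees
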